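import Pool.Agent.Helper85.TK.St

set_option autoImplicit false

namespace Pool.Agent.Helper34.TK

open Finset Pool.Agent.Helper29.TK Pool.Agent.Helper85.TK

theorem mm_pos {n : ℕ} {φ : ℝ} (hn : 1 ≤ n) (h0 : 0 < φ) (h1 : φ < 1) : 0 < mm n φ := by
  unfold mm
  have hn0 : (0 : ℝ) < n := by exact_mod_cast hn
  have h2 : φ ^ n < 1 := pow_lt_one₀ h0.le h1 (by omega)
  have h3 : 0 < φ ^ n := pow_pos h0 n
  have h4 : 0 < 1 - φ := by linarith
  have h5 : 0 < 1 - φ ^ n := by linarith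
  positivity

theorem hI1 (hGS : StGS) (hMS : StMS) (hMZ : StMZ) (hLM : StLM) : StI1 := by
  intro n P p φ q Q χ D
  obtain ⟨g1, -, -, -, -, g6, g7⟩ := hGS
  have hn0 : (0 : ℝ) < n := by exact_mod_cast D.hn
  have hp1 : p < 1 := lt_of_lt_of_le D.pQ D.Q1
  have hQ0 : 0 < Q := D.p0.trans D.pQ
  have hP0 : 0 < P := by rw [D.hP]; exact pow_pos D.p0 _
  have hPp : P ≤ p := by
    rw [D.hP]
    exact pow_le_of_le_one D.p0.le hp1.le (by omega)
  have hPQ : P < Q := lt_of_le_of_lt hPp D.pQ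
  have hq0 : 0 < q := by rw [D.hq]; exact pow_pos hQ0 _
  have hq1 : q ≤ 1 := by rw [D.hq]; exact pow_le_one₀ hQ0.le D.Q1
  have hqQ : q ≤ Q := by
    rw [D.hq]
    exact pow_le_of_le_one hQ0.le D.Q1 (by have := D.hn; omega)
  have hpn : p ^ n < q := by
    rw [D.hq]; exact pow_lt_pow_left₀ D.pQ D.p0.le (by have := D.hn; omega)
  have hPpn : P = p * p ^ n := by rw [D.hP]; ring
  have hden : 0 < p * q - P := by
    rw [hPpn, ← mul_sub]
    exact mul_pos D.p0 (by linarith)
  have hm : 0 < mm n φ := mm_pos D.hn D.φ0 D.φ1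
  have hR : 0 ≤ (1 - q) * (mm n φ * (Q - P) / P + (Q - p) / (p * q - P)) := by
    have h1 : 0 ≤ 1 - q := by linarith
    have h2 : 0 ≤ Q - P := by linarith
    have h3 : 0 ≤ Q - p := by linarith [D.pQ]
    positivity
  have hsub : 0 ≤ n * (1 - χ) - q := by
    have h1 := g1 n χ
    have h2 := g6 n χ D.χ0 D.χ1.le
    have h3 : 1 - χ ^ n = q := by rw [D.hχ]; ring
    nlinarith [D.χ1]
  by_cases hc : n = 1 ∨ Q = 1
  · have hK : KK' n Q q χ = 0 := by
      unfold KK'
      have : Q - q = 0 := by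
        rcases hc with h | h
        · rw [D.hq, h]; ring
        · rw [D.hq, h]; ring
      rw [this, zero_div]
    rw [hK, zero_mul]
    exact hR
  · push Not at hc
    have hn2 : 2 ≤ n := by have := D.hn; omega
    have hQ1 : Q < 1 := lt_of_le_of_ne D.Q1 hc.2
    have hq1' : q < 1 := by rw [D.hq]; exact pow_lt_one₀ hQ0.le hQ1 (by omega)
    set P₁ : ℝ := Q ^ (n + 1) with hP₁
    have hP₁q : P₁ = q * Q := by rw [hP₁, D.hq]; ring
    have hP₁0 : 0 < P₁ := pow_pos hQ0 _
    have hP₁1 : P₁ < 1 := pow_lt_one₀ hQ0.le hQ1 (by omega)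
    have hPP₁ : P < P₁ := by rw [D.hP]; exact pow_lt_pow_left₀ D.pQ D.p0.le (by omega)
    set φ₁ : ℝ := (1 - P₁) ^ ((1 : ℝ) / ((n + 1 : ℕ) : ℝ)) with hφ₁
    have hφ₁p : φ₁ ^ (n + 1) = 1 - P₁ := by
      rw [hφ₁, one_div]
      exact Real.rpow_inv_natCast_pow (by linarith) (by omega)
    have hφ₁0 : 0 < φ₁ := Real.rpow_pos_of_pos (by linarith) _
    have hφ₁φ : φ₁ < φ := by
      refine lt_of_pow_lt_pow_left₀ (n + 1) D.φ0.le ?_
      rw [hφ₁p, D.hφ]; linarith
    have hφ₁1 : φ₁ < 1 := hφ₁φ.trans D.φ1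
    have hχ0 : 0 < χ := by
      rcases D.χ0.lt_or_eq with h | h
      · exact h
      · exfalso
        have h1 := D.hχ
        rw [← h, zero_pow (by omega)] at h1
        linarith
    have D1 : Dat1 n P₁ Q φ₁ q χ :=
      ⟨hn2, hQ0, hQ1, hP₁, D.hq, hφ₁0, hφ₁1, hφ₁p, hχ0, D.χ1, D.hχ⟩
    have hMS' := hMS n φ₁ φ D.hn hφ₁0 hφ₁φ.le D.φ1
    have hMZ' := hMZ n P₁ Q φ₁ q χ D1
    have hLM' := hLM n P₁ Q φ₁ q χ D1
    rw [D.hφ, hφ₁p, sub_sub_cancel, sub_sub_cancel] at hMS'
    set K := KK' n Q q χ with hK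
    have hK0 : 0 ≤ K := by
      rw [hK]; unfold KK'
      exact div_nonneg (by linarith) hsub
    set ζ := 1 - q + q * K with hζ
    have hζ0 : 0 < ζ := by
      have : 0 ≤ q * K := mul_nonneg hq0.le hK0
      linarith
    set m := mm n φ with hm'
    set m₁ := mm n φ₁ with hm₁'
    have hm₁ : 0 < m₁ := mm_pos D.hn hφ₁0 hφ₁1
    set Z := (n : ℝ) / (n + 1) * W n φ₁ with hZ
    have hZle : Z ≤ P₁ / (m₁ * ζ) := by
      rw [le_div_iff₀ (mul_pos hm₁ hζ0)]
      calc Z * (m₁ * ζ) = Z * m₁ * ζ := by ring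
        _ ≤ P₁ := hMZ'
    have hinv : 0 ≤ 1 / P - 1 / P₁ := by
      have : 1 / P₁ ≤ 1 / P := one_div_le_one_div_of_le hP0 hPP₁.le
      linarith
    have h1 : 1 / m ≤ (P₁ / P - 1 + ζ) / (m₁ * ζ) := by
      calc 1 / m ≤ 1 / m₁ + Z * (1 / P - 1 / P₁) := hMS'
        _ ≤ 1 / m₁ + P₁ / (m₁ * ζ) * (1 / P - 1 / P₁) := by
            have := mul_le_mul_of_nonneg_right hZle hinv
            linarith
        _ = (P₁ / P - 1 + ζ) / (m₁ * ζ) := by
            field_simp
            ring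
    have h2 : m₁ * ζ ≤ m * (P₁ / P - 1 + ζ) := by
      rw [div_le_div_iff₀ hm (mul_pos hm₁ hζ0)] at h1
      linarith
    have h3 : P₁ / P - 1 + ζ = q * (Q / P - 1 + K) := by
      rw [hP₁q, hζ]
      field_simp
      ring
    rw [h3] at h2
    -- the last term
    have h4 : 1 / n ≤ q * ((Q - p) / (p * q - P)) := by
      have hx0 : 0 ≤ p / Q := by have := D.p0; positivity
      have hx1 : p / Q ≤ 1 := (div_le_one hQ0).2 D.pQ.le
      have e1 := g1 n (p / Q)
      have e2 := g6 n (p / Q) hx0 hx1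
      have e3 : 1 - (p / Q) ^ n ≤ n * (1 - p / Q) := by
        rw [← e1]
        have : 0 ≤ 1 - p / Q := by linarith
        nlinarith
      have e4 : (p / Q) ^ n = p ^ n / q := by rw [div_pow, D.hq]
      rw [e4] at e3
      have e5 : q - p ^ n ≤ n * q * (1 - p / Q) := by
        have := mul_le_mul_of_nonneg_left e3 hq0.le
        have e6 : q * (1 - p ^ n / q) = q - p ^ n := by field_simp
        rw [e6] at this
        linarith
      have e7 : p * q - P ≤ n * q * (Q - p) := by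
        have e8 : p * q - P = p * (q - p ^ n) := by rw [hPpn]; ring
        rw [e8]
        calc p * (q - p ^ n) ≤ p * (n * q * (1 - p / Q)) :=
              mul_le_mul_of_nonneg_left e5 D.p0.le
          _ = (n * q * (Q - p)) * (p / Q) := by field_simp
          _ ≤ (n * q * (Q - p)) * 1 := by
              refine mul_le_mul_of_nonneg_left hx1 ?_
              have : 0 ≤ Q - p := by linarith [D.pQ]
              positivity
          _ = n * q * (Q - p) := by ring
      rw [mul_div_assoc', div_le_div_iff₀ hn0 hden]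
      nlinarith
    have hg0 : 0 < 1 - q := by linarith
    -- combination
    have h5 : q * K / (1 - q) ≤ q * (m * (Q / P - 1 + K) + (Q - p) / (p * q - P)) := by
      have : q * (m * (Q / P - 1 + K) + (Q - p) / (p * q - P)) =
        m * (q * (Q / P - 1 + K)) + q * ((Q - p) / (p * q - P)) := by ring
      rw [this]
      linarith
    have h6 : K ≤ (1 - q) * (m * (Q / P - 1 + K) + (Q - p) / (p * q - P)) := by
      rw [div_le_iff₀ hg0] at h5
      have h7 : q * K ≤ q * ((1 - q) * (m * (Q / P - 1 + K) + (Q - p) / (p * q - P))) := by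
        linarith
      exact le_of_mul_le_mul_left h7 hq0
    have h8 : m * (Q - P) / P = m * (Q / P - 1) := by
      field_simp
    rw [h8]
    nlinarith

end Pool.Agent.Helper34.TK
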